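import Mathlib
import Pool.Agent.Helper96.LB3.Stmts

/-!
CLC: the cosh inequality, integrated.
-/

open MeasureTheory Set

namespace Pool.Agent.Helper38.LB3

open Pool.Agent.Helper96.LB3

theorem cont_ciInf {ι : Type} [Fintype ι] [Nonempty ι] (f : ι → ℝ → ℝ)
    (hf : ∀ i, Continuous (f i)) : Continuous fun x => ⨅ i, f i x := by
  have h : (fun x => ⨅ i, f i x) =
      fun x => Finset.univ.inf' Finset.univ_nonempty fun i => f i x := by
    funext x
    rw [Finset.inf'_univ_eq_ciInf]
  rw [h]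
  exact Continuous.finset_inf'_apply Finset.univ_nonempty fun i _ => hf i

theorem cont_ciSup {ι : Type} [Fintype ι] [Nonempty ι] (f : ι → ℝ → ℝ)
    (hf : ∀ i, Continuous (f i)) : Continuous fun x => ⨆ i, f i x := by
  have h : (fun x => ⨆ i, f i x) =
      fun x => Finset.univ.sup' Finset.univ_nonempty fun i => f i x := by
    funext x
    rw [Finset.sup'_univ_eq_ciSup]
  rw [h]
  exact Continuous.finset_sup'_apply Finset.univ_nonempty fun i _ => hf i

variable {E : Type} [Fintype E]

theorem topf_le_one (g1 g2 A : E → ℝ) (x : ℝ) : topf g1 g2 A x ≤ 1 := by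
  unfold topf
  exact ciInf_le (Set.finite_range _).bddBelow (none : Option E)

theorem topf_le (g1 g2 A : E → ℝ) (x : ℝ) (e : E) (he : 0 < g2 e) :
    topf g1 g2 A x ≤ (A e - g1 e * x) / g2 e := by
  unfold topf
  refine (ciInf_le (Set.finite_range _).bddBelow (some e)).trans ?_
  simp [he]

theorem le_topf (g1 g2 A : E → ℝ) (x t : ℝ) (h1 : t ≤ 1)
    (h2 : ∀ e, 0 < g2 e → t ≤ (A e - g1 e * x) / g2 e) : t ≤ topf g1 g2 A x := by
  unfold topf
  refine le_ciInf fun e => ?_
  rcases e with _ | e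
  · exact h1
  · by_cases he : 0 < g2 e
    · simpa [he] using h2 e he
    · simpa [he] using h1

theorem cont_topf (g1 g2 A : E → ℝ) : Continuous (topf g1 g2 A) := by
  unfold topf
  refine cont_ciInf _ fun e => ?_
  rcases e with _ | e
  · exact continuous_const
  · by_cases he : 0 < g2 e
    · simp only [he, if_true]
      fun_prop
    · simp only [he, if_false]
      exact continuous_const

/-- The part of the deficit produced by the constraints with nonnegative first coefficient. -/
noncomputable def Rf (g1 g2 A : E → ℝ) (x : ℝ) : ℝ :=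
  ⨆ e : Option E, (match e with
    | none => 0
    | some e => if 0 < g2 e ∧ 0 ≤ g1 e then (g2 e + g1 e * x - A e) / g2 e else 0)

theorem Rf_nonneg (g1 g2 A : E → ℝ) (x : ℝ) : 0 ≤ Rf g1 g2 A x := by
  unfold Rf
  exact le_ciSup (f := fun e : Option E => (match e with
    | none => (0 : ℝ)
    | some e => if 0 < g2 e ∧ 0 ≤ g1 e then (g2 e + g1 e * x - A e) / g2 e else 0))
    (Set.finite_range _).bddAbove (none : Option E)

theorem le_Rf (g1 g2 A : E → ℝ) (x : ℝ) (e : E) (h2 : 0 < g2 e) (h1 : 0 ≤ g1 e) :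
    (g2 e + g1 e * x - A e) / g2 e ≤ Rf g1 g2 A x := by
  unfold Rf
  refine le_trans ?_ (le_ciSup (f := fun e : Option E => (match e with
    | none => (0 : ℝ)
    | some e => if 0 < g2 e ∧ 0 ≤ g1 e then (g2 e + g1 e * x - A e) / g2 e else 0))
    (Set.finite_range _).bddAbove (some e))
  simp [h1, h2]

theorem Rf_le (g1 g2 A : E → ℝ) (x t : ℝ) (h0 : 0 ≤ t)
    (h : ∀ e, 0 < g2 e → 0 ≤ g1 e → (g2 e + g1 e * x - A e) / g2 e ≤ t) :
    Rf g1 g2 A x ≤ t := by
  unfold Rf
  refine ciSup_le fun e => ?_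
  rcases e with _ | e
  · exact h0
  · by_cases he : 0 < g2 e ∧ 0 ≤ g1 e
    · simpa [he] using h e he.1 he.2
    · simpa [he] using h0

theorem cont_Rf (g1 g2 A : E → ℝ) : Continuous (Rf g1 g2 A) := by
  unfold Rf
  refine cont_ciSup _ fun e => ?_
  rcases e with _ | e
  · exact continuous_const
  · by_cases he : 0 < g2 e ∧ 0 ≤ g1 e
    · simp only [he, if_true, and_self]
      fun_prop
    · simp only [he, if_false]
      exact continuous_const

theorem one_sub_le (g1 g2 A : E → ℝ) (x : ℝ) :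
    1 - (Rf g1 g2 A x + Rf (fun e => -g1 e) g2 A (-x)) ≤ topf g1 g2 A x := by
  have hR := Rf_nonneg g1 g2 A x
  have hL := Rf_nonneg (fun e => -g1 e) g2 A (-x)
  refine le_topf g1 g2 A x _ (by linarith) fun e he => ?_
  have hid : (A e - g1 e * x) / g2 e = 1 - (g2 e + g1 e * x - A e) / g2 e := by
    field_simp
    ring
  rcases le_total 0 (g1 e) with h | h
  · have := le_Rf g1 g2 A x e he h
    rw [hid]
    linarith
  · have h' : (0 : ℝ) ≤ -g1 e := by linarith
    have := le_Rf (fun e => -g1 e) g2 A (-x) e he h'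
    have h3 : g2 e + -g1 e * -x - A e = g2 e + g1 e * x - A e := by ring
    simp only [h3] at this
    rw [hid]
    linarith

theorem topf_le_one_sub (g1 g2 A : E → ℝ) (x : ℝ)
    (h : ∃ p ∈ Q g1 g2 A, p.2 = 1) :
    topf g1 g2 A x ≤ 1 - (Rf g1 g2 A x + Rf (fun e => -g1 e) g2 A (-x)) := by
  obtain ⟨p, ⟨-, -, hp⟩, hp2⟩ := h
  have h1 := topf_le_one g1 g2 A x
  have hid : ∀ e, 0 < g2 e →
      (A e - g1 e * x) / g2 e = 1 - (g2 e + g1 e * x - A e) / g2 e := by
    intro e he
    field_simp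
    ring
  have hR : Rf g1 g2 A x ≤ 1 - topf g1 g2 A x := by
    refine Rf_le _ _ _ _ _ (by linarith) fun e he _ => ?_
    have := topf_le g1 g2 A x e he
    rw [hid e he] at this
    linarith
  have hL : Rf (fun e => -g1 e) g2 A (-x) ≤ 1 - topf g1 g2 A x := by
    refine Rf_le _ _ _ _ _ (by linarith) fun e he _ => ?_
    have := topf_le g1 g2 A x e he
    rw [hid e he] at this
    have h3 : g2 e + -g1 e * -x - A e = g2 e + g1 e * x - A e := by ring
    simp only [h3]
    linarith
  rcases le_total x p.1 with hx | hx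
  · have h0 : Rf g1 g2 A x ≤ 0 := by
      refine Rf_le _ _ _ _ _ le_rfl fun e he he1 => ?_
      refine div_nonpos_of_nonpos_of_nonneg ?_ he.le
      have := hp e
      rw [hp2] at this
      nlinarith [mul_le_mul_of_nonneg_left hx he1]
    linarith
  · have h0 : Rf (fun e => -g1 e) g2 A (-x) ≤ 0 := by
      refine Rf_le _ _ _ _ _ le_rfl fun e he he1 => ?_
      refine div_nonpos_of_nonpos_of_nonneg ?_ he.le
      have := hp e
      rw [hp2] at this
      nlinarith [mul_le_mul_of_nonneg_left hx he1]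
    linarith

/-- The right half. -/
theorem right_half (g1 g2 Ap Am A0 : E → ℝ) (r : ℝ) (hr : 1 ≤ r)
    (hA : ∀ e, Ap e + Am e ≤ (r + r⁻¹) * A0 e) (q : ℝ) (hq : -1 ≤ q)
    (hQ : ∀ e, g1 e * r⁻¹ * q + g2 e * r ≤ Am e) :
    2 * ∫ x in (-1 : ℝ)..1, Rf g1 g2 A0 x ≤
      (∫ x in (-1 : ℝ)..1, Rf (fun e => g1 e * r) (fun e => g2 e * r⁻¹) Ap x) +
        ∫ x in (-1 : ℝ)..1, Rf (fun e => g1 e * r⁻¹) (fun e => g2 e * r) Am x := by
  have r0 : 0 < r := by linarith
  have rne : r ≠ 0 := r0.ne'
  have ri0 : 0 < r⁻¹ := inv_pos.mpr r0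
  set Rp := Rf (fun e => g1 e * r) (fun e => g2 e * r⁻¹) Ap with hRp
  set Rm := Rf (fun e => g1 e * r⁻¹) (fun e => g2 e * r) Am with hRm
  have cp : Continuous Rp := cont_Rf _ _ _
  have cm : Continuous Rm := cont_Rf _ _ _
  have c0 : Continuous (Rf g1 g2 A0) := cont_Rf _ _ _
  have cFp : Continuous fun U : ℝ => r⁻¹ * Rp (1 - U / r) := by fun_prop
  have cFm : Continuous fun U : ℝ => r * Rm (1 - r * U) := by fun_prop
  have cF0 : Continuous fun U : ℝ => Rf g1 g2 A0 (1 - U) := by fun_prop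
  have nFp : ∀ U : ℝ, 0 ≤ r⁻¹ * Rp (1 - U / r) := fun U =>
    mul_nonneg ri0.le (Rf_nonneg _ _ _ _)
  have nFm : ∀ U : ℝ, 0 ≤ r * Rm (1 - r * U) := fun U =>
    mul_nonneg r0.le (Rf_nonneg _ _ _ _)
  -- pointwise inequality
  have hpt : ∀ U : ℝ, 0 ≤ U →
      2 * Rf g1 g2 A0 (1 - U) ≤ r⁻¹ * Rp (1 - U / r) + r * Rm (1 - r * U) := by
    intro U hU
    have hnn : 0 ≤ (r⁻¹ * Rp (1 - U / r) + r * Rm (1 - r * U)) / 2 := by
      have := nFp U
      have := nFm U
      linarith
    have : Rf g1 g2 A0 (1 - U) ≤ (r⁻¹ * Rp (1 - U / r) + r * Rm (1 - r * U)) / 2 := by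
      refine Rf_le _ _ _ _ _ hnn fun e he2 he1 => ?_
      rcases le_or_gt ((g2 e + g1 e * (1 - U) - A0 e) / g2 e) 0 with hv | hv
      · exact hv.trans hnn
      · have hX : 0 < g2 e + g1 e * (1 - U) - A0 e := by
          by_contra hcon
          have := div_nonpos_of_nonpos_of_nonneg (not_lt.mp hcon) he2.le
          linarith
        have h1 : (g2 e * r⁻¹ + g1 e * r - g1 e * U - Ap e) / g2 e ≤ r⁻¹ * Rp (1 - U / r) := by
          have := le_Rf (fun e => g1 e * r) (fun e => g2 e * r⁻¹) Ap (1 - U / r) e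
            (mul_pos he2 ri0) (mul_nonneg he1 r0.le)
          have h := mul_le_mul_of_nonneg_left this ri0.le
          refine le_trans (le_of_eq ?_) h
          field_simp
          ring
        have h2 : (g2 e * r + g1 e * r⁻¹ - g1 e * U - Am e) / g2 e ≤ r * Rm (1 - r * U) := by
          have := le_Rf (fun e => g1 e * r⁻¹) (fun e => g2 e * r) Am (1 - r * U) e
            (mul_pos he2 r0) (mul_nonneg he1 ri0.le)
          have h := mul_le_mul_of_nonneg_left this r0.le
          refine le_trans (le_of_eq ?_) h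
          field_simp
          ring
        have h3 : 2 * ((g2 e + g1 e * (1 - U) - A0 e) / g2 e) ≤
            (g2 e * r⁻¹ + g1 e * r - g1 e * U - Ap e) / g2 e +
              (g2 e * r + g1 e * r⁻¹ - g1 e * U - Am e) / g2 e := by
          rw [← add_div, ← mul_div_assoc]
          refine div_le_div_of_nonneg_right ?_ he2.le
          have hcosh : 2 ≤ r + r⁻¹ := by
            have : r + r⁻¹ - 2 = (r - 1) ^ 2 * r⁻¹ := by
              field_simp
              ring
            have h4 : 0 ≤ (r - 1) ^ 2 * r⁻¹ := by positivity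
            linarith
          have hX0 : 0 ≤ g2 e + g1 e - A0 e := by nlinarith [mul_nonneg he1 hU]
          have := hA e
          nlinarith [mul_nonneg hX0 (sub_nonneg.mpr hcosh)]
        linarith
    linarith
  -- change of variables
  have i0 : ∫ x in (-1 : ℝ)..1, Rf g1 g2 A0 x = ∫ U in (0 : ℝ)..2, Rf g1 g2 A0 (1 - U) := by
    rw [intervalIntegral.integral_comp_sub_left (fun x => Rf g1 g2 A0 x) 1]
    norm_num
  have ip : ∫ x in (-1 : ℝ)..1, Rp x = ∫ U in (0 : ℝ)..(2 * r), r⁻¹ * Rp (1 - U / r) := by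
    rw [intervalIntegral.integral_const_mul,
      intervalIntegral.integral_comp_div (fun y => Rp (1 - y)) rne,
      intervalIntegral.integral_comp_sub_left (fun x => Rp x) 1]
    have h1 : 1 - 2 * r / r = (-1 : ℝ) := by
      rw [mul_div_assoc, div_self rne]
      norm_num
    rw [h1, zero_div, sub_zero, smul_eq_mul, ← mul_assoc, inv_mul_cancel₀ rne, one_mul]
  have im : ∫ x in (-1 : ℝ)..1, Rm x = ∫ U in (0 : ℝ)..(2 / r), r * Rm (1 - r * U) := by
    rw [intervalIntegral.integral_const_mul,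
      intervalIntegral.integral_comp_mul_left (fun y => Rm (1 - y)) rne,
      intervalIntegral.integral_comp_sub_left (fun x => Rm x) 1]
    have h1 : 1 - r * (2 / r) = (-1 : ℝ) := by
      rw [mul_div_assoc', mul_comm r 2, mul_div_assoc, div_self rne]
      norm_num
    rw [h1, mul_zero, sub_zero, smul_eq_mul, ← mul_assoc, mul_inv_cancel₀ rne, one_mul]
  -- the extension of the intervals
  have hp2 : ∫ U in (0 : ℝ)..2, r⁻¹ * Rp (1 - U / r) ≤
      ∫ U in (0 : ℝ)..(2 * r), r⁻¹ * Rp (1 - U / r) := by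
    refine intervalIntegral.integral_mono_interval le_rfl (by norm_num) (by linarith)
      (Filter.Eventually.of_forall fun U => nFp U) (cFp.intervalIntegrable _ _)
  have h2r : 2 / r ≤ 2 := by
    rw [div_le_iff₀ r0]
    linarith
  have hzero : ∫ U in (2 / r)..2, r * Rm (1 - r * U) = 0 := by
    rw [intervalIntegral.integral_congr (g := fun _ => (0 : ℝ))]
    · simp
    · intro U hU
      rw [uIcc_of_le h2r] at hU
      have hU1 : 2 / r ≤ U := hU.1
      have hrU : 2 ≤ r * U := by
        rw [div_le_iff₀ r0] at hU1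
        linarith
      have : Rm (1 - r * U) ≤ 0 := by
        refine Rf_le _ _ _ _ _ le_rfl fun e he2 he1 => ?_
        refine div_nonpos_of_nonpos_of_nonneg ?_ he2.le
        have h5 : 1 - r * U ≤ q := by linarith
        have h6 := mul_le_mul_of_nonneg_left h5 he1
        have h7 := hQ e
        linarith
      have h8 : Rm (1 - r * U) = 0 := le_antisymm this (Rf_nonneg _ _ _ _)
      simp only [h8, mul_zero]
  have hm2 : ∫ U in (0 : ℝ)..2, r * Rm (1 - r * U) =
      ∫ U in (0 : ℝ)..(2 / r), r * Rm (1 - r * U) := by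
    rw [← intervalIntegral.integral_add_adjacent_intervals
      (cFm.intervalIntegrable 0 (2 / r)) (cFm.intervalIntegrable (2 / r) 2), hzero, add_zero]
  have hmono : ∫ U in (0 : ℝ)..2, 2 * Rf g1 g2 A0 (1 - U) ≤
      ∫ U in (0 : ℝ)..2, (r⁻¹ * Rp (1 - U / r) + r * Rm (1 - r * U)) := by
    refine intervalIntegral.integral_mono_on (by norm_num)
      ((continuous_const.mul cF0).intervalIntegrable _ _)
      ((cFp.add cFm).intervalIntegrable _ _) fun U hU => hpt U hU.1
  rw [intervalIntegral.integral_const_mul, intervalIntegral.integral_add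
    (cFp.intervalIntegrable _ _) (cFm.intervalIntegrable _ _), hm2] at hmono
  rw [i0, ip, im]
  linarith

theorem st_CLC : ST_CLC := by
  intro E _ g1 g2 Ap Am A0 r hr hA hp hm
  obtain ⟨p, ⟨hp1, -, hpe⟩, hp2⟩ := id hm
  have hp1' := abs_le.mp hp1
  -- right half and left half
  have hR := right_half g1 g2 Ap Am A0 r hr hA p.1 hp1'.1 (fun e => by
    have := hpe e
    simp only [hp2] at this
    linarith)
  have hL := right_half (fun e => -g1 e) g2 Ap Am A0 r hr hA (-p.1) (by linarith) (fun e => by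
    have := hpe e
    simp only [hp2] at this
    linarith)
  have ci : ∀ (a b A : E → ℝ), IntervalIntegrable (fun x => Rf a b A x) volume (-1) 1 :=
    fun a b A => (cont_Rf a b A).intervalIntegrable _ _
  have ci' : ∀ (a b A : E → ℝ), IntervalIntegrable (fun x => Rf a b A (-x)) volume (-1) 1 :=
    fun a b A => ((cont_Rf a b A).comp continuous_neg).intervalIntegrable _ _
  have ct : ∀ (a b A : E → ℝ), IntervalIntegrable (fun x => topf a b A x) volume (-1) 1 :=
    fun a b A => (cont_topf a b A).intervalIntegrable _ _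
  have hneg : ∀ (a b A : E → ℝ),
      ∫ x in (-1 : ℝ)..1, Rf a b A (-x) = ∫ x in (-1 : ℝ)..1, Rf a b A x := by
    intro a b A
    rw [intervalIntegral.integral_comp_neg (fun x => Rf a b A x)]
    norm_num
  have hsplit : ∀ (a b A : E → ℝ),
      ∫ x in (-1 : ℝ)..1, (1 - (Rf a b A x + Rf (fun e => -a e) b A (-x))) =
        2 - ((∫ x in (-1 : ℝ)..1, Rf a b A x) +
          ∫ x in (-1 : ℝ)..1, Rf (fun e => -a e) b A x) := by
    intro a b A
    rw [intervalIntegral.integral_sub intervalIntegrable_const ((ci _ _ _).add (ci' _ _ _)),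
      intervalIntegral.integral_add (ci _ _ _) (ci' _ _ _), hneg]
    norm_num
  have hup : ∀ (a b A : E → ℝ), (∃ p ∈ Q a b A, p.2 = 1) →
      ∫ x in (-1 : ℝ)..1, topf a b A x ≤ 2 - ((∫ x in (-1 : ℝ)..1, Rf a b A x) +
          ∫ x in (-1 : ℝ)..1, Rf (fun e => -a e) b A x) := by
    intro a b A h
    rw [← hsplit]
    exact intervalIntegral.integral_mono_on (by norm_num) (ct _ _ _)
      (intervalIntegrable_const.sub ((ci _ _ _).add (ci' _ _ _)))
      fun x _ => topf_le_one_sub a b A x h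
  have hlow : 2 - ((∫ x in (-1 : ℝ)..1, Rf g1 g2 A0 x) +
          ∫ x in (-1 : ℝ)..1, Rf (fun e => -g1 e) g2 A0 x) ≤
      ∫ x in (-1 : ℝ)..1, topf g1 g2 A0 x := by
    rw [← hsplit]
    exact intervalIntegral.integral_mono_on (by norm_num)
      (intervalIntegrable_const.sub ((ci _ _ _).add (ci' _ _ _))) (ct _ _ _)
      fun x _ => one_sub_le g1 g2 A0 x
  have h1 := hup _ _ _ hp
  have h2 := hup _ _ _ hm
  have e1 : (fun e => -(g1 e * r)) = fun e => -g1 e * r := by
    funext e
    ring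
  have e2 : (fun e => -(g1 e * r⁻¹)) = fun e => -g1 e * r⁻¹ := by
    funext e
    ring
  rw [e1] at h1
  rw [e2] at h2
  linarith

end Pool.Agent.Helper38.LB3
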